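import Mathlib

set_option autoImplicit false

namespace Pool.Agent.H.MP_339821_gt

open Set Filter Topology Cardinal

abbrev Sg (I : Type) : Type := {x : I → Bool // {i | x i = true}.Countable}

variable {I : Type}

def A (z : I → Bool) (s : Finset (I × Bool)) : Prop := ∀ p ∈ s, z p.1 = p.2

def Con (s : Finset (I × Bool)) : Prop := ∃ z, A z s

theorem A.mono {z : I → Bool} {s t : Finset (I × Bool)} (h : A z t) (hs : s ⊆ t) : A z s :=
  fun p hp => h p (hs hp)

theorem basis (x : Sg I) (U : Set (Sg I)) (hU : U ∈ 𝓝 x) :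
    ∃ s, A x.1 s ∧ ∀ z : Sg I, A z.1 s → z ∈ U := by
  classical
  obtain ⟨V, hV, hVU⟩ := (mem_nhds_induced _ _ _).1 hU
  rw [nhds_pi, Filter.mem_pi'] at hV
  obtain ⟨K, t, ht, hK⟩ := hV
  refine ⟨K.image fun i => (i, x.1 i), ?_, fun z hz => hVU (hK fun i hi => ?_)⟩
  · intro p hp
    obtain ⟨i, -, rfl⟩ := Finset.mem_image.1 hp
    rfl
  · have := hz (i, x.1 i) (Finset.mem_image_of_mem _ hi)
    simp only at this
    rw [this]
    exact mem_of_mem_nhds (ht i)

theorem isOpen_A (s : Finset (I × Bool)) : IsOpen {z : Sg I | A z.1 s} := by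
  have : {z : Sg I | A z.1 s} = ⋂ p ∈ s, (fun z : Sg I => z.1 p.1) ⁻¹' {p.2} := by
    ext z; simp [A]
  rw [this]
  exact isOpen_biInter_finset fun p _ =>
    (isOpen_discrete _).preimage ((continuous_apply p.1).comp continuous_subtype_val)

open Classical in
noncomputable def pt (s : Finset (I × Bool)) : Sg I :=
  ⟨fun i => decide ((i, true) ∈ s), by
    refine ((s.finite_toSet.image Prod.fst).subset ?_).countable
    intro i hi
    exact ⟨(i, true), by simpa using hi, rfl⟩⟩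

theorem pt_A {s : Finset (I × Bool)} (h : Con s) : A (pt s).1 s := by
  obtain ⟨z, hz⟩ := h
  rintro ⟨i, b⟩ hp
  cases b
  · have : (i, true) ∉ s := fun h => by
      have h1 := hz _ h
      have h2 := hz _ hp
      simp only at h1 h2
      rw [h1] at h2
      cases h2
    simp [pt, this]
  · simp [pt, hp]

theorem dense_iff (D : Set (Sg I)) : Dense D ↔ ∀ s, Con s → ∃ z ∈ D, A z.1 s := by
  constructor
  · intro h s hs
    obtain ⟨z, h1, h2⟩ := h.inter_open_nonempty _ (isOpen_A s) ⟨pt s, pt_A hs⟩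
    exact ⟨z, h2, h1⟩
  · intro h
    rw [dense_iff_inter_open]
    rintro U hU ⟨x, hx⟩
    obtain ⟨s, h1, h2⟩ := basis x U (hU.mem_nhds hx)
    obtain ⟨z, h3, h4⟩ := h s ⟨_, h1⟩
    exact ⟨z, h2 z h4, h3⟩

theorem discrete_iff (F : Set (Sg I)) :
    DiscreteTopology ↥F ↔ ∀ x ∈ F, ∃ s, A x.1 s ∧ ∀ z ∈ F, A z.1 s → z = x := by
  rw [← isDiscrete_iff_discreteTopology, isDiscrete_iff_forall_mem_exists_isOpen]
  constructor
  · intro h x hx
    obtain ⟨U, hU, hUF⟩ := h x hx
    have hxU : x ∈ U := (hUF.symm ▸ (mem_singleton x) : x ∈ U ∩ F).1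
    obtain ⟨s, h1, h2⟩ := basis x U (hU.mem_nhds hxU)
    exact ⟨s, h1, fun z hz hA => (hUF ▸ (⟨h2 z hA, hz⟩ : z ∈ U ∩ F) : z ∈ ({x} : Set _))⟩
  · intro h x hx
    obtain ⟨s, h1, h2⟩ := h x hx
    refine ⟨_, isOpen_A s, ?_⟩
    ext z
    exact ⟨fun hz => h2 z hz.2 hz.1, fun hz => hz ▸ ⟨h1, hx⟩⟩

theorem frechet : FrechetUrysohnSpace (Sg I) := by
  classical
  refine ⟨fun S x hx => ?_⟩
  have h1 : ∀ K : Finset I, ∃ a ∈ S, ∀ i ∈ K, a.1 i = x.1 i := by
    intro K
    obtain ⟨a, ha1, ha2⟩ := mem_closure_iff.1 hx _ (isOpen_A (K.image fun i => (i, x.1 i))) (by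
      intro p hp
      obtain ⟨i, -, rfl⟩ := Finset.mem_image.1 hp
      rfl)
    exact ⟨a, ha2, fun i hi => ha1 (i, x.1 i) (Finset.mem_image_of_mem _ hi)⟩
  choose g hg1 hg2 using h1
  have h2 : ∀ z : Sg I, ∃ c : ℕ → Finset I, Monotone c ∧ ∀ i, z.1 i = true → ∃ k, i ∈ c k := by
    intro z
    rcases eq_empty_or_nonempty {i | z.1 i = true} with h | h
    · exact ⟨fun _ => ∅, monotone_const, fun i hi => absurd (h ▸ hi : i ∈ (∅ : Set I)) id⟩
    · obtain ⟨f, hf⟩ := z.2.exists_eq_range h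
      refine ⟨fun k => (Finset.range k).image f, fun a b hab =>
        Finset.image_subset_image (Finset.range_mono hab), fun i hi => ?_⟩
      obtain ⟨k, rfl⟩ : i ∈ range f := hf ▸ hi
      exact ⟨k + 1, Finset.mem_image_of_mem _ (Finset.self_mem_range_succ k)⟩
  choose c hc1 hc2 using h2
  let T : ℕ → ℕ → Finset I := fun n => Nat.rec (c x) (fun m t k => t k ∪ c (g (t m)) k) n
  have hT : ∀ n k, T (n + 1) k = T n k ∪ c (g (T n n)) k := fun _ _ => rfl
  have m1 : ∀ k, Monotone fun n => T n k := fun k =>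
    monotone_nat_of_le_succ fun n => by rw [hT]; exact Finset.subset_union_left
  have m2 : ∀ n, Monotone (T n) := by
    intro n
    induction n with
    | zero => exact hc1 x
    | succ n ih => exact fun a b hab => Finset.union_subset_union (ih hab) (hc1 _ hab)
  have m3 : ∀ i n k, i ∈ T n k → ∀ᶠ m in atTop, i ∈ T m m := by
    intro i n k h
    filter_upwards [eventually_ge_atTop (max n k)] with m hm
    exact m2 m ((le_max_right _ _).trans hm) (m1 k ((le_max_left _ _).trans hm) h)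
  refine ⟨fun n => g (T n n), fun n => hg1 _, ?_⟩
  rw [tendsto_subtype_rng, tendsto_pi_nhds]
  intro i
  rw [nhds_discrete, tendsto_pure]
  rcases Classical.em (∃ n k, i ∈ T n k) with h | h
  · obtain ⟨n, k, h⟩ := h
    exact (m3 i n k h).mono fun m hm => hg2 _ i hm
  · push Not at h
    refine Eventually.of_forall fun n => ?_
    have h3 : x.1 i = false := by
      by_contra h4
      obtain ⟨k, hk⟩ := hc2 x i (by simpa using h4)
      exact h 0 k hk
    have h4 : (g (T n n)).1 i = false := by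
      by_contra h4
      obtain ⟨k, hk⟩ := hc2 _ i (by simpa using h4)
      exact h (n + 1) k (by rw [hT]; exact Finset.mem_union_right _ hk)
    rw [h3, h4]

theorem dsep : ∃ F : ℕ → Set (Sg I), (∀ n, DiscreteTopology ↥(F n)) ∧ Dense (⋃ n, F n) := by
  classical
  refine ⟨fun n => {x | ∃ T : Finset I, T.card = n ∧ ∀ i, x.1 i = true ↔ i ∈ T}, fun n => ?_, ?_⟩
  · rw [discrete_iff]
    rintro x ⟨T, hT, hx⟩
    refine ⟨T.image fun i => (i, true), ?_, ?_⟩
    · intro p hp
      obtain ⟨i, hi, rfl⟩ := Finset.mem_image.1 hp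
      exact (hx i).2 hi
    · rintro z ⟨T', hT', hz⟩ hA
      have h1 : T ⊆ T' := fun i hi => (hz i).1 (hA (i, true) (Finset.mem_image_of_mem _ hi))
      have h2 : T = T' := Finset.eq_of_subset_of_card_le h1 (by rw [hT, hT'])
      subst h2
      refine Subtype.ext (funext fun i => ?_)
      rw [Bool.eq_iff_iff, hx, hz]
  · rw [dense_iff]
    intro s hs
    refine ⟨pt s, mem_iUnion.2 ⟨_, (s.filter fun p => p.2 = true).image Prod.fst, rfl, ?_⟩,
      pt_A hs⟩
    intro i
    simp [pt]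

theorem nwd [Infinite I] (F : Set (Sg I)) (hF : DiscreteTopology ↥F) (s : Finset (I × Bool)) :
    ∃ t, Con s → s ⊆ t ∧ Con t ∧ ∀ z ∈ F, ¬ A z.1 t := by
  classical
  by_cases h : ∃ x ∈ F, A x.1 s
  · obtain ⟨x, hx, hxs⟩ := h
    obtain ⟨u, hu, hu'⟩ := (discrete_iff F).1 hF x hx
    obtain ⟨i, hi⟩ := Infinite.exists_notMem_finset ((s ∪ u).image Prod.fst)
    refine ⟨insert (i, !x.1 i) (s ∪ u), fun _ => ⟨?_, ⟨Function.update x.1 i (!x.1 i), ?_⟩, ?_⟩⟩
    · exact Finset.subset_union_left.trans (Finset.subset_insert _ _)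
    · intro p hp
      rcases Finset.mem_insert.1 hp with rfl | hp
      · simp
      · have : p.1 ≠ i := fun h => hi (h ▸ Finset.mem_image_of_mem _ hp)
        rw [Function.update_of_ne this]
        rcases Finset.mem_union.1 hp with hp | hp
        · exact hxs p hp
        · exact hu p hp
    · intro z hz hA
      have h1 := hu' z hz (hA.mono (Finset.subset_union_right.trans (Finset.subset_insert _ _)))
      have h2 := hA _ (Finset.mem_insert_self _ _)
      rw [h1] at h2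
      simp at h2
  · push Not at h
    exact ⟨s, fun hs => ⟨subset_rfl, hs, h⟩⟩

theorem closF {α : Type} (ψ : Finset α → Set α) (hψ : ∀ s, (ψ s).Countable) :
    ∃ C : Set α, C.Countable ∧ ∀ s : Finset α, ↑s ⊆ C → ψ s ⊆ C := by
  obtain ⟨C, h0, h1⟩ : ∃ C : ℕ → Set α, C 0 = ∅ ∧
      ∀ k, C (k + 1) = C k ∪ ⋃ s ∈ {s : Finset α | ↑s ⊆ C k}, ψ s :=
    ⟨fun k => Nat.rec ∅ (fun _ D => D ∪ ⋃ s ∈ {s : Finset α | ↑s ⊆ D}, ψ s) k,
      rfl, fun _ => rfl⟩
  have h2 : Monotone C := monotone_nat_of_le_succ fun k => by rw [h1]; exact subset_union_left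
  refine ⟨⋃ k, C k, countable_iUnion fun k => ?_, fun s hs => ?_⟩
  · induction k with
    | zero => rw [h0]; exact countable_empty
    | succ k ih =>
      rw [h1]
      refine ih.union (Set.Countable.biUnion ?_ fun s _ => hψ s)
      exact ((countable_ofPred_finite_subset ih).preimage Finset.coe_injective).mono
        fun s hs => And.intro s.finite_toSet hs
  · obtain ⟨k, hk⟩ := (h2.directed_le).exists_mem_subset_of_finset_subset_biUnion hs
    refine Subset.trans ?_ (subset_iUnion _ (k + 1))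
    rw [h1]
    exact fun x hx => Or.inr (mem_iUnion₂.mpr ⟨s, hk, hx⟩)

open Classical in
def Pre (a : ℕ → Finset (I × Bool)) : Prop := ∀ t, Con t → ∃ j, Con (t ∪ a j)

theorem code [Infinite I] (F : Set (Sg I)) (hF : DiscreteTopology ↥F) :
    ∃ a : ℕ → Finset (I × Bool), Pre a ∧ ∀ j, ∀ z ∈ F, ¬ A z.1 (a j) := by
  classical
  choose φ hφ using nwd F hF
  obtain ⟨C, hC, hC'⟩ := closF (fun s : Finset (I × Bool) =>
    (φ s : Set (I × Bool)) ∪ (fun p : I × Bool => (p.1, !p.2)) '' s)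
    fun s => (φ s).countable_toSet.union (s.countable_toSet.image _)
  have flip : ∀ i b, (i, b) ∈ C → (i, !b) ∈ C := fun i b h =>
    hC' {(i, b)} (by simpa using h) (Or.inr ⟨(i, b), by simp, rfl⟩)
  have flip' : ∀ p : I × Bool, p ∈ C ↔ (p.1, true) ∈ C := by
    rintro ⟨i, b⟩
    cases b
    · exact ⟨flip i false, flip i true⟩
    · rfl
  have hcnt : {s : Finset (I × Bool) | ↑s ⊆ C ∧ Con s}.Countable :=
    ((countable_ofPred_finite_subset hC).preimage Finset.coe_injective).mono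
      fun s hs => And.intro s.finite_toSet hs.1
  obtain ⟨f, hf⟩ := hcnt.exists_eq_range ⟨∅, by simp, fun _ => true, by simp [A]⟩
  have hf' : ∀ j, ↑(f j) ⊆ C ∧ Con (f j) := fun j => by
    have : f j ∈ range f := mem_range_self j
    rwa [← hf] at this
  refine ⟨fun j => φ (f j), fun t ⟨z, hz⟩ => ?_, fun j => (hφ _ (hf' j).2).2.2⟩
  have h1 : t.filter (· ∈ C) ∈ range f := by
    rw [← hf]
    exact ⟨fun p hp => (Finset.mem_filter.1 hp).2, z, hz.mono (Finset.filter_subset _ _)⟩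
  obtain ⟨j, hj⟩ := h1
  obtain ⟨h2, ⟨w, hw⟩, -⟩ := hφ _ (hf' j).2
  refine ⟨j, fun i => if (i, true) ∈ C then w i else z i, fun p hp => ?_⟩
  rcases Finset.mem_union.1 hp with hp | hp
  · by_cases h : (p.1, true) ∈ C
    · simp only [if_pos h]
      exact hw p (h2 (hj ▸ Finset.mem_filter.2 ⟨hp, (flip' p).2 h⟩))
    · simp only [if_neg h]
      exact hz p hp
  · have h : (p.1, true) ∈ C := (flip' p).1 (hC' _ (hf' j).1 (Or.inl hp))
    simp only [if_pos h]
    exact hw p hp

theorem stepF {ι : Type} (a : ι → ℕ → Finset (I × Bool)) (Q : Finset ι)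
    (s : Finset (I × Bool)) (hs : Con s) :
    ∃ t, s ⊆ t ∧ Con t ∧ ∀ q ∈ Q, Pre (a q) → ∃ j, a q j ⊆ t := by
  classical
  induction Q using Finset.induction_on with
  | empty => exact ⟨s, subset_rfl, hs, by simp⟩
  | insert q Q _ ih =>
    obtain ⟨t, h1, h2, h3⟩ := ih
    by_cases h : Pre (a q)
    · obtain ⟨j, hj⟩ := h t h2
      refine ⟨t ∪ a q j, h1.trans Finset.subset_union_left, hj, fun r hr hp => ?_⟩
      rcases Finset.mem_insert.1 hr with rfl | hr
      · exact ⟨j, Finset.subset_union_right⟩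
      · exact (h3 r hr hp).imp fun _ h => h.trans Finset.subset_union_left
    · refine ⟨t, h1, h2, fun r hr hp => ?_⟩
      rcases Finset.mem_insert.1 hr with rfl | hr
      · exact absurd hp h
      · exact h3 r hr hp

theorem dense_gen (e : I → ℕ → ℕ → Finset (I × Bool)) :
    Dense {x : Sg I | ∀ ξ, x.1 ξ = true → ∀ k, Pre (e ξ k) → ∃ j, A x.1 (e ξ k j)} := by
  classical
  rw [dense_iff]
  intro s0 hs0
  have h1 : ∀ (n : ℕ) (s : Finset (I × Bool)), ∃ t, Con s → s ⊆ t ∧ Con t ∧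
      ∀ p ∈ s, ∀ k ≤ n, Pre (e p.1 k) → ∃ j, e p.1 k j ⊆ t := by
    intro n s
    by_cases hs : Con s
    · obtain ⟨t, h1, h2, h3⟩ := stepF (fun q : (I × Bool) × ℕ => e q.1.1 q.2)
        (s ×ˢ Finset.range (n + 1)) s hs
      exact ⟨t, fun _ => ⟨h1, h2, fun p hp k hk => h3 (p, k)
        (Finset.mem_product.2 ⟨hp, Finset.mem_range.2 (Nat.lt_succ_of_le hk)⟩)⟩⟩
    · exact ⟨s, fun h => absurd h hs⟩
  choose nx hnx using h1
  let s : ℕ → Finset (I × Bool) := fun n => Nat.rec s0 (fun m t => nx m t) n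
  have hs : ∀ n, Con (s n) := by
    intro n
    induction n with
    | zero => exact hs0
    | succ n ih => exact (hnx n _ ih).2.1
  have hm : Monotone s := monotone_nat_of_le_succ fun n => (hnx n _ (hs n)).1
  let x : Sg I := ⟨fun i => @decide (∃ n, (i, true) ∈ s n) (Classical.propDecidable _), by
    refine (countable_iUnion fun n => ((s n).countable_toSet.image Prod.fst)).mono ?_
    intro i hi
    obtain ⟨n, hn⟩ : ∃ n, (i, true) ∈ s n := by simpa using hi
    exact mem_iUnion.2 ⟨n, (i, true), hn, rfl⟩⟩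
  have hx : ∀ n, A x.1 (s n) := by
    rintro n ⟨i, b⟩ hp
    cases b
    · have : ¬ ∃ m, (i, true) ∈ s m := by
        rintro ⟨m, h⟩
        obtain ⟨z, hz⟩ := hs (max n m)
        have h1 := hz _ (hm (le_max_right n m) h)
        have h2 := hz _ (hm (le_max_left n m) hp)
        simp only at h1 h2
        rw [h1] at h2
        cases h2
      simp only [x, this, decide_false]
    · have : ∃ m, (i, true) ∈ s m := ⟨n, hp⟩
      simp only [x, this, decide_true]
  refine ⟨x, fun ξ hξ k hk => ?_, hx 0⟩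
  obtain ⟨n, hn⟩ : ∃ n, (ξ, true) ∈ s n := by simpa [x] using hξ
  obtain ⟨j, hj⟩ := (hnx (max n k) _ (hs _)).2.2 (ξ, true) (hm (le_max_left n k) hn) k
    (le_max_right _ _) hk
  exact ⟨j, (hx (max n k + 1)).mono hj⟩

theorem not_D [Infinite I] (h : #I ^ ℵ₀ = #I) : ∃ D : Set (Sg I), Dense D ∧
    ∀ F : ℕ → Set (Sg I), (∀ n, F n ⊆ D ∧ DiscreteTopology ↥(F n)) → ¬ Dense (⋃ n, F n) := by
  classical
  have hc : #(ℕ → ℕ → Finset (I × Bool)) = #I := by
    have h1 : #(I × Bool) = #I := by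
      simp only [mk_prod, lift_id, mk_fintype, Fintype.card_bool, Nat.cast_ofNat]
      exact mul_eq_left (aleph0_le_mk I) ((natCast_lt_aleph0 (n := 2)).le.trans (aleph0_le_mk I)) two_ne_zero
    simp only [mk_pi, prod_const, lift_id, mk_nat, mk_finset_of_infinite, h1, h]
  obtain ⟨e⟩ := Cardinal.eq.1 hc.symm
  refine ⟨_, dense_gen e, fun F hF hd => ?_⟩
  choose a ha1 ha2 using fun n => code (F n) (hF n).2
  obtain ⟨z, hz, hA⟩ := (dense_iff _).1 hd {(e.symm a, true)} ⟨fun _ => true, by simp [A]⟩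
  obtain ⟨n, hn⟩ := mem_iUnion.1 hz
  have h1 := (hF n).1 hn (e.symm a) (hA _ (Finset.mem_singleton_self _)) n
  rw [e.apply_symm_apply] at h1
  obtain ⟨j, hj⟩ := h1 (ha1 n)
  exact ha2 n j z hn hj

end Pool.Agent.H.MP_339821_gt
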