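import Mathlib
import Pool.Agent.H.MP_339821_gt.A

set_option autoImplicit false

namespace Pool.Agent.H.MP_339821_gt

open Set Filter Topology Cardinal

theorem mx {α : Type} (r : α → α → Prop) (hr : ∀ a c, r a c → r c a) (D : Set α) :
    ∃ A ⊆ D, A.Pairwise r ∧ ∀ d ∈ D, ∃ a ∈ A, a = d ∨ ¬ r a d := by
  obtain ⟨A, hA⟩ := zorn_subset {A | A ⊆ D ∧ A.Pairwise r} fun c hc hc' =>
    ⟨⋃₀ c, ⟨sUnion_subset fun s hs => (hc hs).1,
      (pairwise_sUnion hc'.directedOn).mpr fun s hs => (hc hs).2⟩,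
      fun s hs => subset_sUnion_of_mem hs⟩
  refine ⟨A, hA.prop.1, hA.prop.2, fun d hd => ?_⟩
  by_contra hn
  push Not at hn
  have h1 : insert d A ∈ {A | A ⊆ D ∧ A.Pairwise r} := ⟨insert_subset hd hA.prop.1,
    hA.prop.2.insert fun a ha _ => ⟨hr _ _ (hn a ha).2, (hn a ha).2⟩⟩
  exact (hn d (hA.le_of_ge h1 (subset_insert _ _) (mem_insert _ _))).1 rfl

theorem mk_iUnion_le' {ι α : Type} (f : ι → Set α) (c : Cardinal) (hc : ℵ₀ ≤ c) (h1 : #ι ≤ c)
    (h2 : ∀ i, #(f i) ≤ c) : #(⋃ i, f i) ≤ c := by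
  refine (mk_iUnion_le_sum_mk).trans ?_
  refine (sum_le_sum _ (fun _ => c) h2).trans ?_
  rw [sum_const']
  exact (mul_le_mul' h1 le_rfl).trans (mul_eq_self hc).le

theorem lazar (J : Type) (c : Cardinal) (hc : ℵ₀ ≤ c) (hJ : Order.succ c < #J) (f : J → Set J)
    (hf : ∀ j, #(f j) ≤ c) : ∃ H : Set J, c ≤ #H ∧ H.Pairwise fun i j => i ∉ f j := by
  by_contra hn
  push Not at hn
  choose M hM1 hM2 hM3 using mx (fun i j => i ∉ f j ∧ j ∉ f i) fun a b h => ⟨h.2, h.1⟩
  let W := (Order.succ c).ord.ToType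
  have hW : #W = Order.succ c := mk_ord_toType _
  let S : W → Set J := (wellFounded_lt (α := W)).fix fun a rec => M (⋃ b, ⋃ h : b < a, rec b h)ᶜ
  have hS : ∀ a, S a = M (⋃ b, ⋃ _ : b < a, S b)ᶜ := fun a => WellFounded.fix_eq _ _ _
  have hc' : ℵ₀ ≤ Order.succ c := hc.trans (Order.le_succ c)
  have h1 : ∀ a, #(S a) ≤ c := by
    intro a
    by_contra h
    refine hn (S a) (not_le.1 h).le ?_
    rw [hS]
    exact (hM2 _).mono' fun i j h => h.1
  have h2 : #(⋃ a, (S a ∪ ⋃ j : S a, f j.1)) ≤ Order.succ c := by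
    refine mk_iUnion_le' _ _ hc' hW.le fun a => ?_
    refine (mk_union_le _ _).trans (le_trans ?_ (Order.le_succ c))
    exact (add_le_add (h1 a) (mk_iUnion_le' _ _ hc (h1 a) fun j => hf _)).trans (add_eq_self hc).le
  obtain ⟨i, hi⟩ : ∃ i, i ∉ ⋃ a, (S a ∪ ⋃ j : S a, f j.1) := by
    by_contra h
    push Not at h
    rw [eq_univ_of_forall h, mk_univ] at h2
    exact absurd h2 (not_le.2 hJ)
  simp only [mem_iUnion, mem_union, not_exists, not_or] at hi
  have h3 : ∀ a, ∃ x ∈ S a, x ∈ f i := by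
    intro a
    obtain ⟨x, hx, h⟩ := hM3 (⋃ b, ⋃ _ : b < a, S b)ᶜ i (by
      simp only [mem_compl_iff, mem_iUnion, not_exists]
      exact fun b _ => (hi b).1)
    rw [← hS] at hx
    refine ⟨x, hx, ?_⟩
    rcases h with rfl | h
    · exact absurd hx (hi a).1
    · by_contra h4
      exact h ⟨h4, (hi a).2 ⟨x, hx⟩⟩
  choose x hx1 hx2 using h3
  have h4 : ∀ a b, b < a → x a ≠ x b := by
    intro a b hab h
    have h5 := hx1 a
    rw [hS] at h5
    exact hM1 _ h5 (mem_iUnion₂.2 ⟨b, hab, h ▸ hx1 b⟩)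
  have h5 : #W ≤ #(f i) := by
    refine mk_le_of_injective (f := fun a => ⟨x a, hx2 a⟩) fun a b h => ?_
    have h6 : x a = x b := congrArg Subtype.val h
    rcases lt_trichotomy a b with h7 | h7 | h7
    · exact absurd h6.symm (h4 b a h7)
    · exact h7
    · exact absurd h6 (h4 a b h7)
  rw [hW] at h5
  exact absurd (h5.trans (hf i)) (not_le.2 (Order.lt_succ c))

variable {I : Type}

theorem small (K : Set I) (hK : Order.succ (max ℵ₀ #K) < #I) (D : Set (Sg I)) (hD : Dense D) :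
    ∃ F ⊆ D, DiscreteTopology ↥F ∧
      ∀ s, Con s → (∀ p ∈ s, p.1 ∈ K) → ∃ z ∈ F, A z.1 s := by
  classical
  set c := max ℵ₀ #K with hc
  have hinf : ℵ₀ ≤ c := le_max_left _ _
  have hlt : c < #I := (Order.le_succ c).trans_lt hK
  haveI : Infinite I := aleph0_le_mk_iff.1 (hinf.trans hlt.le)
  have hJ : #(Kᶜ : Set I) = #I := mk_compl_of_infinite K ((le_max_right _ _).trans_lt hlt)
  let φ : K × Bool → I × Bool := fun p => (p.1.1, p.2)
  have hT : #(Finset (K × Bool)) ≤ c := by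
    refine (mk_le_of_surjective List.toFinset_surjective).trans ((mk_list_le_max _).trans ?_)
    refine max_le hinf ?_
    simp only [mk_prod, lift_id, mk_fintype, Fintype.card_bool, Nat.cast_ofNat]
    exact (mul_le_mul' (le_max_right _ _) ((natCast_lt_aleph0 (n := 2)).le.trans hinf)).trans
      (mul_eq_self hinf).le
  have h1 : ∀ (t : Finset (K × Bool)) (ξ : (Kᶜ : Set I)), ∃ x ∈ D, x.1 ξ.1 = true ∧
      (Con (t.image φ) → A x.1 (t.image φ)) := by
    intro t ξ
    by_cases h : Con (t.image φ)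
    · obtain ⟨z, hz⟩ := h
      obtain ⟨x, hx, hA⟩ := (dense_iff D).1 hD (insert (ξ.1, true) (t.image φ))
        ⟨Function.update z ξ.1 true, by
          intro p hp
          rcases Finset.mem_insert.1 hp with rfl | hp
          · simp
          · obtain ⟨q, -, rfl⟩ := Finset.mem_image.1 hp
            have : (φ q).1 ≠ ξ.1 := fun h => ξ.2 (h ▸ q.1.2)
            rw [Function.update_of_ne this]
            exact hz _ hp⟩
      exact ⟨x, hx, hA _ (Finset.mem_insert_self _ _), fun _ => hA.mono (Finset.subset_insert _ _)⟩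
    · obtain ⟨x, hx, hA⟩ := (dense_iff D).1 hD {(ξ.1, true)} ⟨fun _ => true, by simp [A]⟩
      exact ⟨x, hx, hA _ (Finset.mem_singleton_self _), fun h' => absurd h' h⟩
  choose x hx1 hx2 hx3 using h1
  obtain ⟨H, hH, hfree⟩ := lazar (Kᶜ : Set I) c hinf (hJ ▸ hK)
    (fun ξ => ⋃ t, Subtype.val ⁻¹' {i | (x t ξ).1 i = true})
    (fun ξ => mk_iUnion_le' _ _ hinf hT fun t =>
      (le_aleph0_iff_set_countable.2 ((x t ξ).2.preimage Subtype.val_injective)).trans hinf)
  obtain ⟨i⟩ := (Cardinal.le_def _ _).1 (hT.trans hH)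
  refine ⟨range fun t => x t (i t).1, ?_, ?_, ?_⟩
  · rintro _ ⟨t, rfl⟩
    exact hx1 _ _
  · rw [discrete_iff]
    rintro _ ⟨t, rfl⟩
    refine ⟨{((i t).1.1, true)}, by simpa [A] using hx2 t _, ?_⟩
    rintro _ ⟨u, rfl⟩ hA
    have h2 : (x u (i u).1).1 (i t).1.1 = true := hA _ (Finset.mem_singleton_self _)
    have h3 : (i t).1 = (i u).1 := by
      by_contra h
      exact hfree (i t).2 (i u).2 h (mem_iUnion.2 ⟨u, h2⟩)
    rw [i.injective (Subtype.ext h3)]
  · intro s hs hsK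
    have hφ : Function.Injective φ := fun p q h => by
      simp only [φ, Prod.mk.injEq] at h
      exact Prod.ext (Subtype.ext h.1) h.2
    have h2 : (s.preimage φ hφ.injOn).image φ = s := by
      rw [Finset.image_preimage, Finset.filter_true_of_mem]
      intro p hp
      exact ⟨(⟨p.1, hsK p hp⟩, p.2), rfl⟩
    refine ⟨_, mem_range_self (s.preimage φ hφ.injOn), ?_⟩
    have h3 := hx3 (s.preimage φ hφ.injOn) (i (s.preimage φ hφ.injOn)).1
    rw [h2] at h3
    exact h3 hs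

theorem yes_D (h : (#I).ord.cof = ℵ₀) (D : ℕ → Set (Sg I)) (hD : ∀ n, Dense (D n)) :
    ∃ F : ℕ → Set (Sg I), (∀ n, F n ⊆ D n ∧ DiscreteTopology ↥(F n)) ∧ Dense (⋃ n, F n) := by
  classical
  have hinf : ℵ₀ ≤ #I := h ▸ Ordinal.cof_ord_le _
  rcases hinf.eq_or_lt with h0 | h0
  · haveI : Countable I := mk_le_aleph0_iff.1 h0.ge
    obtain ⟨e, he⟩ := exists_surjective_nat (Finset (I × Bool))
    have h1 : ∀ n, ∃ x ∈ D n, Con (e n) → A x.1 (e n) := by
      intro n
      by_cases hc : Con (e n)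
      · obtain ⟨x, h1, h2⟩ := (dense_iff _).1 (hD n) _ hc
        exact ⟨x, h1, fun _ => h2⟩
      · obtain ⟨x, h1, -⟩ := (dense_iff _).1 (hD n) ∅ ⟨fun _ => true, by simp [A]⟩
        exact ⟨x, h1, fun h => absurd h hc⟩
    choose x hx1 hx2 using h1
    refine ⟨fun n => {x n}, fun n => ⟨singleton_subset_iff.2 (hx1 n), inferInstance⟩, ?_⟩
    rw [dense_iff]
    intro s hs
    obtain ⟨n, rfl⟩ := he s
    exact ⟨x n, mem_iUnion.2 ⟨n, rfl⟩, hx2 n hs⟩
  · let W := (#I).ord.ToType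
    have hW : #W = #I := mk_ord_toType _
    obtain ⟨e⟩ := Cardinal.eq.1 hW.symm
    obtain ⟨S, hS, hS'⟩ := Order.exists_cof_eq W
    rw [Ordinal.cof_toType, h] at hS'
    have hSc : S.Countable := le_aleph0_iff_set_countable.1 hS'.le
    have hSn : S.Nonempty := by
      rw [← nonempty_coe_sort, ← mk_ne_zero_iff, hS']
      exact aleph0_ne_zero
    obtain ⟨c, rfl⟩ := hSc.exists_eq_range hSn
    have h1 : ∀ n, Order.succ (max ℵ₀ #(e ⁻¹' Iic (c n))) < #I := by
      intro n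
      have h2 : #(Iio (c n)) < #I := by
        have := mk_Iio_lt (c n) (by rw [hW]; simp [W])
        rwa [hW] at this
      have h3 : #(e ⁻¹' Iic (c n)) < #I := by
        refine (mk_preimage_of_injective _ _ e.injective).trans_lt ?_
        rw [← Iio_insert]
        exact mk_insert_le.trans_lt (add_lt_of_lt hinf h2 (one_lt_aleph0.trans h0))
      refine (Order.succ_le_of_lt (max_lt h0 h3)).lt_of_ne fun h4 => ?_
      have h5 := (isRegular_succ (le_max_left ℵ₀ #(e ⁻¹' Iic (c n)))).cof_ord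
      rw [h4, h] at h5
      exact h0.ne h5
    choose F hF1 hF2 hF3 using fun n => small _ (h1 n) (D n) (hD n)
    refine ⟨F, fun n => ⟨hF1 n, hF2 n⟩, ?_⟩
    rw [dense_iff]
    intro s hs
    have : Nonempty W := ⟨c 0⟩
    obtain ⟨b, hb⟩ := (s.image fun p => e p.1).exists_le
    obtain ⟨_, ⟨n, rfl⟩, hn⟩ := hS b
    obtain ⟨z, hz, hA⟩ := hF3 n s hs fun p hp =>
      (hb _ (Finset.mem_image_of_mem _ hp)).trans hn
    exact ⟨z, mem_iUnion.2 ⟨n, hz⟩, hA⟩

end Pool.Agent.H.MP_339821_gt
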